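import Mathlib
import Pool.Agent.Q23.ZE.Main

/-!
# Actions of groups which contain extraspecial `p`-groups on manifolds
-/

set_option autoImplicit false

open scoped Manifold ContDiff

namespace Pool.Agent.Results.MP_943a15_an.ExtraspecialSubgroups

open Q4.ZI

/-- Let `D` be a finite `p`-subgroup of the group `Γ`, let `z ∈ D` commute with `D`, and let `X` be
a finite subset of `D` such that for all distinct `x`, `y` in `X` some conjugate of `x⁻¹ y` by an
element of `D` is `z x⁻¹ y` (for example `D` an extraspecial group of order `p ^ (1 + 2 h)`, `z` a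
generator of its centre and `X` a set of `p ^ (2 h)` representatives of the classes modulo the
centre). Let `Γ` act by `C^1` diffeomorphisms on the connected Hausdorff manifold `M` modelled on
`E`. Suppose that `D` has an orbit of at most `p ^ k` points, or that `M` has a finite `D`-invariant
triangulation with Euler characteristic not divisible by `p ^ (k + 1)`. If
`(dim E * p ^ k) ^ 2 < |X|`, or if `(dim E * p ^ k) ^ 2 < 4 |X|` and either `p` is odd or `z = c * c`
for an element `c` of `D` which commutes with `D`, then `z` acts trivially on `M`; if moreover the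
normal closure of `z` in `Γ` has finite index, then `Γ` acts on `M` through a finite group. -/
theorem result (p : ℕ) [Fact p.Prime] (Γ : Type) [Group Γ] (D : Subgroup Γ) (hfin : Finite D)
    (hD : IsPGroup p D) (z : Γ) (hzD : z ∈ D) (hzc : ∀ d ∈ D, z * d = d * z) (X : Finset Γ)
    (hXD : ∀ x ∈ X, x ∈ D)
    (hX : ∀ x ∈ X, ∀ y ∈ X, x ≠ y → ∃ u ∈ D, u * (x⁻¹ * y) * u⁻¹ = z * (x⁻¹ * y)) (k : ℕ)
    (E M : Type) [NormedAddCommGroup E] [NormedSpace ℝ E] [FiniteDimensional ℝ E]
    (hdim : (Module.finrank ℝ E * p ^ k) ^ 2 < X.card ∨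
      (p ≠ 2 ∨ ∃ c ∈ D, c * c = z ∧ ∀ d ∈ D, c * d = d * c) ∧
        (Module.finrank ℝ E * p ^ k) ^ 2 < 4 * X.card)
    [TopologicalSpace M] [T2Space M] [ConnectedSpace M] [ChartedSpace E M]
    [IsManifold 𝓘(ℝ, E) 1 M] [MulAction Γ M]
    (hsm : ∀ g : Γ, ContMDiff 𝓘(ℝ, E) 𝓘(ℝ, E) 1 (fun y : M => g • y))
    (h : (∃ x : M, Nat.card (MulAction.orbit D x) ≤ p ^ k) ∨
      ∃ T : Tri D M, ¬ (p : ℤ) ^ (k + 1) ∣ T.chi) :
    (∀ y : M, z • y = y) ∧
      ((Subgroup.normalClosure {z}).FiniteIndex → Finite (MulAction.toPermHom Γ M).range) :=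
  Q23.ZE.main p Γ D hD z hzD hzc X hXD hX k E M hdim hsm h

end Pool.Agent.Results.MP_943a15_an.ExtraspecialSubgroups
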