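import Mathlib
import Pool.Agent.Q23.ZQ.Main

/-!
# Actions of `SL_n` over rings which contain a square root of `-1` on manifolds
-/

set_option autoImplicit false

open Matrix
open scoped Manifold ContDiff

namespace Pool.Agent.Results.MP_943a15_an.GaussianOrders

open Q4.ZI Q23.ZQ

/-- Let `O` be a ring whose additive group is finitely generated, `2 ≠ 0` in `O`, `i ∈ O`,
`i² = -1`, and `n ≥ 3`. Let `Γ = Gam O S n` be the subgroup of `GL_n(O)` generated by the elementary
matrices and the finite `2`-group `D = DD Γ S` of the diagonal matrices with entries in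
`S = {±1, ±i}`. Let `Γ` act by `C^1` diffeomorphisms on a connected manifold `M` of dimension
`< 2 (n - 1) - 2 k`. Suppose that `D` has an orbit with at most `2 ^ k` points in `M`, or that `M`
has a finite triangulation invariant under `D` whose Euler characteristic is not divisible by
`2 ^ (k + 1)`. Then `Γ` acts on `M` through a finite group; more precisely, the normal subgroup
`E2 O n` generated by the elementary matrices with entries in `2 O` acts trivially. -/
theorem result (O : Type) [Ring O] [Module.Finite ℤ O] (h2 : (2 : O) ≠ 0) (n : ℕ) (hn : 3 ≤ n)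
    (k : ℕ) (E M : Type) [NormedAddCommGroup E] [NormedSpace ℝ E] [FiniteDimensional ℝ E]
    (i : O) (hi : i * i = -1) (S : Set O) (hS : S = {1, -1, i, -i})
    (hdim : Module.finrank ℝ E + 2 * k < 2 * (n - 1))
    [TopologicalSpace M] [T2Space M] [ConnectedSpace M] [ChartedSpace E M]
    [IsManifold 𝓘(ℝ, E) 1 M] [MulAction (Gam O S n) M]
    (hsm : ∀ g : Gam O S n, ContMDiff 𝓘(ℝ, E) 𝓘(ℝ, E) 1 (fun y : M => g • y))
    (h : (∃ x : M, (MulAction.orbit (DD (Gam O S n) S) x).ncard ≤ 2 ^ k) ∨
      ∃ T : Tri (DD (Gam O S n) S) M, ¬ (2 : ℤ) ^ (k + 1) ∣ T.chi) :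
    (∀ g : Gam O S n, g.1 ∈ E2 O n → ∀ y : M, g • y = y) ∧
      Finite (MulAction.toPermHom (Gam O S n) M).range :=
  main h2 hn k E M S (Or.inl ⟨i, hi, hS, hdim⟩) hsm h

end Pool.Agent.Results.MP_943a15_an.GaussianOrders
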